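import Mathlib

/-!
# MP_e5500d_nt, Q1 and Q2: a closed form for the alternating sum

`S n`, `T m` and `A N` are the sequences of the problem (`A N` is defined as a rational number).

Let `P = z⁻¹ - (1 + z) (y + 2 + y⁻¹)` and let `a n i j` be the coefficient of `y ^ i z ^ j` in `P ^ n`
(defined by the recursion for the multiplication by `P`).  Then `S (n + 3) = a n 0 0`, the constant
term of `P ^ n`.  With
`β n = -a n 0 2 + 4 a n 0 1 + 2 a n 0 0 - 4 a n 1 1 - 6 a n 1 0 ∈ ℤ` we show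
`T (n + 3) = (n + 3)² β (n + 1) + (n + 3) (n + 2) β n` (`main_identity`; the proof combines the
relations `z ∂/∂z P ^ (n + 1) = (n + 1) P ^ n z ∂/∂z P` and the same for `y`), and so
`A (n + 2) = (-1) ^ n (n + 2) β n` (`A_eq`).  This gives Q1.  For an odd prime `p` only one term of the
binomial sums for the coefficients in `β (p - 2)` is not divisible by `p`, which gives
`β (p - 2) ≡ 2 (-1) ^ ((p - 1) / 2)` modulo `p` and Q2.
-/

set_option autoImplicit false

open Finset

namespace Pool.Agent.Results.MP_e5500d_nt.ClosedForm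

/-! ## The sequences of the problem -/

/-- `S_n = ∑_{k=0}^{n-3} (-1)^k C(2k,k) C(n-3,k) C(k,n-3-k)` (the sum is empty for `n < 3`) -/
def S (n : ℕ) : ℤ :=
  ∑ k ∈ range (n - 2), (-1) ^ k * ((2 * k).choose k : ℤ) * ((n - 3).choose k : ℤ) *
    (k.choose (n - 3 - k) : ℤ)

/-- `T_m = S_{m+2} + 12 S_{m+1} + 16 S_m` -/
def T (m : ℕ) : ℤ := S (m + 2) + 12 * S (m + 1) + 16 * S m

/-- `A(N) = ∑_{k=1}^N (-1)^k T_k / k` -/
def A (N : ℕ) : ℚ := ∑ k ∈ Icc 1 N, (-1) ^ k * (T k : ℚ) / k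

/-! ## The coefficients of the powers of `P = z⁻¹ - (1 + z) (y + 2 + y⁻¹)` -/

/-- the coefficient of `y ^ i z ^ j` in `P ^ n` -/
def a : ℕ → ℤ → ℤ → ℤ
  | 0, i, j => if i = 0 ∧ j = 0 then 1 else 0
  | n + 1, i, j => a n i (j + 1) - a n (i - 1) j - 2 * a n i j - a n (i + 1) j -
      a n (i - 1) (j - 1) - 2 * a n i (j - 1) - a n (i + 1) (j - 1)

lemma a_succ (n : ℕ) (i j : ℤ) : a (n + 1) i j = a n i (j + 1) - a n (i - 1) j - 2 * a n i j -
    a n (i + 1) j - a n (i - 1) (j - 1) - 2 * a n i (j - 1) - a n (i + 1) (j - 1) := rfl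

/-- the symmetry `y ↦ y⁻¹` -/
lemma a_neg (n : ℕ) : ∀ i j : ℤ, a n (-i) j = a n i j := by
  induction n with
  | zero =>
    intro i j
    simp [a]
  | succ n ih =>
    intro i j
    rw [a_succ, a_succ]
    have e1 : -i - 1 = -(i + 1) := by ring
    have e2 : -i + 1 = -(i - 1) := by ring
    rw [e1, e2]
    simp only [ih]
    ring

/-- `z ∂/∂z P ^ (n + 1) = (n + 1) P ^ n (z ∂/∂z P)` -/
lemma a_z (n : ℕ) : ∀ i j : ℤ, j * a (n + 1) i j = (n + 1) *
    (-a n i (j + 1) - a n (i - 1) (j - 1) - 2 * a n i (j - 1) - a n (i + 1) (j - 1)) := by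
  induction n with
  | zero =>
    intro i j
    have hz : ∀ i j : ℤ, j * a 0 i j = 0 := by
      intro i j
      simp only [a]
      split_ifs with h
      · rw [h.2]
        simp
      · simp
    rw [a_succ]
    push_cast
    linear_combination hz i (j + 1) - hz (i - 1) j - 2 * hz i j - hz (i + 1) j -
      hz (i - 1) (j - 1) - 2 * hz i (j - 1) - hz (i + 1) (j - 1)
  | succ n ih =>
    intro i j
    have e1 := ih i (j + 1)
    have e2 := ih (i - 1) j
    have e3 := ih i j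
    have e4 := ih (i + 1) j
    have e5 := ih (i - 1) (j - 1)
    have e6 := ih i (j - 1)
    have e7 := ih (i + 1) (j - 1)
    have f1 := a_succ n i (j + 1)
    have f2 := a_succ n (i - 1) (j - 1)
    have f3 := a_succ n i (j - 1)
    have f4 := a_succ n (i + 1) (j - 1)
    have f0 := a_succ (n + 1) i j
    simp only [sub_add_cancel, add_sub_cancel_right] at e1 e2 e3 e4 e5 e6 e7 f1 f2 f3 f4
    push_cast
    linear_combination j * f0 + e1 - e2 - 2 * e3 - e4 - e5 - 2 * e6 - e7 +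
      (n + 1) * (f1 + f2 + 2 * f3 + f4)

/-- `y ∂/∂y P ^ (n + 1) = (n + 1) P ^ n (y ∂/∂y P)` -/
lemma a_y (n : ℕ) : ∀ i j : ℤ, i * a (n + 1) i j = (n + 1) *
    (-a n (i - 1) j + a n (i + 1) j - a n (i - 1) (j - 1) + a n (i + 1) (j - 1)) := by
  induction n with
  | zero =>
    intro i j
    have hz : ∀ i j : ℤ, i * a 0 i j = 0 := by
      intro i j
      simp only [a]
      split_ifs with h
      · rw [h.1]
        simp
      · simp
    rw [a_succ]
    push_cast
    linear_combination hz i (j + 1) - hz (i - 1) j - 2 * hz i j - hz (i + 1) j -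
      hz (i - 1) (j - 1) - 2 * hz i (j - 1) - hz (i + 1) (j - 1)
  | succ n ih =>
    intro i j
    have e1 := ih i (j + 1)
    have e2 := ih (i - 1) j
    have e3 := ih i j
    have e4 := ih (i + 1) j
    have e5 := ih (i - 1) (j - 1)
    have e6 := ih i (j - 1)
    have e7 := ih (i + 1) (j - 1)
    have f1 := a_succ n (i - 1) j
    have f2 := a_succ n (i + 1) j
    have f3 := a_succ n (i - 1) (j - 1)
    have f4 := a_succ n (i + 1) (j - 1)
    have f0 := a_succ (n + 1) i j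
    simp only [sub_add_cancel, add_sub_cancel_right] at e1 e2 e3 e4 e5 e6 e7 f1 f2 f3 f4
    push_cast
    linear_combination i * f0 + e1 - e2 - 2 * e3 - e4 - e5 - 2 * e6 - e7 +
      (n + 1) * (f1 - f2 + f3 - f4)

/-- the constant terms -/
def β (n : ℕ) : ℤ := -a n 0 2 + 4 * a n 0 1 + 2 * a n 0 0 - 4 * a n 1 1 - 6 * a n 1 0

/-- the main identity -/
lemma main_identity (n : ℕ) : a (n + 2) 0 0 + 12 * a (n + 1) 0 0 + 16 * a n 0 0 =
    (n + 3) ^ 2 * β (n + 1) + (n + 3) * (n + 2) * β n := by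
  have h0 := a_succ n 0 (-1)
  have h1 := a_succ n 0 0
  have h2 := a_succ n 0 1
  have h3 := a_succ n 0 2
  have h4 := a_succ n 1 (-1)
  have h5 := a_succ n 1 0
  have h6 := a_succ n 1 1
  have h7 := a_succ (n + 1) 0 0
  have h8 := a_succ (n + 1) 0 1
  have h9 := a_y n 1 (-1)
  have h10 := a_y n 1 0
  have h11 := a_y n 1 1
  have h12 := a_z n 0 (-1)
  have h13 := a_z n 0 0
  have h14 := a_z n 0 1
  have h15 := a_z n 0 2
  have h16 := a_z (n + 1) 0 0
  have h17 := a_z (n + 1) 0 1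
  have s0 : ∀ j, a n (-1) j = a n 1 j := fun j => by rw [a_neg]
  have s1 : ∀ j, a (n + 1) (-1) j = a (n + 1) 1 j := fun j => by rw [a_neg]
  simp only [zero_sub, zero_add, Int.reduceNeg, Int.reduceAdd, Int.reduceSub, sub_self, s0, s1,
    neg_add_cancel] at h0 h1 h2 h3 h4 h5 h6 h7 h8 h9 h10 h11 h12 h13 h14 h15 h16 h17
  unfold β
  have hx : ((n : ℤ) + 1) * (n + 2) ≠ 0 := by positivity
  apply mul_left_cancel₀ hx
  push_cast at *
  generalize (n : ℤ) = x at *
  linear_combination (x + 1) * (x + 2) * ((16) + (20) * x + (4) * x ^ 2) * h0 +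
    (x + 1) * (x + 2) * ((-2) * x) * h1 +
    (x + 1) * (x + 2) * ((-1) + (-7) * x + (-2) * x ^ 2) * h2 +
    (x + 1) * (x + 2) * ((7) + (9) * x + (2) * x ^ 2) * h3 +
    (x + 1) * (x + 2) * ((32) + (24) * x + (4) * x ^ 2) * h4 +
    (x + 1) * (x + 2) * ((30) + (38) * x + (8) * x ^ 2) * h5 +
    (x + 1) * (x + 2) * ((14) + (18) * x + (4) * x ^ 2) * h6 +
    (x + 1) * (x + 2) * ((1)) * h7 +
    (x + 1) * (x + 2) * ((4) + (1) * x) * h8 +
    (x + 2) * ((32) + (24) * x + (4) * x ^ 2) * h9 +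
    (x + 1) * (x + 2) * ((30) + (8) * x) * h10 +
    (x + 1) * (x + 2) * ((14) + (4) * x) * h11 +
    (x + 2) * ((-48) + (-44) * x + (-8) * x ^ 2) * h12 +
    (x + 2) * ((-78) + (-80) * x + (-16) * x ^ 2) * h13 +
    (x + 2) * ((-9) + (-20) * x + (-5) * x ^ 2) * h14 +
    (x + 1) * (x + 2) * ((7) + (2) * x) * h15 +
    1 * ((-33) + (-41) * x + (-16) * x ^ 2 + (-2) * x ^ 3) * h16 +
    (x + 1) * (x + 2) * ((-4) + (-1) * x) * h17

/-! ## The explicit formula for the coefficients -/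

/-- binomial coefficients with integral lower index -/
def bz (m : ℕ) (k : ℤ) : ℤ := if 0 ≤ k then (m.choose k.toNat : ℤ) else 0

lemma bz_natCast (m k : ℕ) : bz m k = m.choose k := by
  simp [bz]

lemma bz_succ (m : ℕ) (k : ℤ) : bz (m + 1) k = bz m k + bz m (k - 1) := by
  unfold bz
  rcases lt_trichotomy k 0 with h | h | h
  · rw [if_neg (by omega), if_neg (by omega), if_neg (by omega)]
    simp
  · subst h
    simp
  · obtain ⟨j, rfl⟩ : ∃ j : ℕ, k = j + 1 := ⟨(k - 1).toNat, by omega⟩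
    rw [if_pos (by omega), if_pos (by omega), if_pos (by omega)]
    have e1 : ((j : ℤ) + 1).toNat = j + 1 := by omega
    have e2 : ((j : ℤ) + 1 - 1).toNat = j := by omega
    rw [e1, e2, Nat.choose_succ_succ]
    push_cast
    ring

lemma bz_eq_zero {m : ℕ} {k : ℤ} (h : (m : ℤ) < k) : bz m k = 0 := by
  unfold bz
  rw [if_pos (by omega), Nat.choose_eq_zero_of_lt (by omega)]
  simp

lemma sum_choose_succ (n : ℕ) (G : ℕ → ℤ) :
    ∑ k ∈ range (n + 2), (-1) ^ k * ((n + 1).choose k : ℤ) * G k =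
      ∑ k ∈ range (n + 1), (-1) ^ k * (n.choose k : ℤ) * (G k - G (k + 1)) := by
  rw [Finset.sum_range_succ']
  have e1 : ∀ k ∈ range (n + 1), (-1 : ℤ) ^ (k + 1) * ((n + 1).choose (k + 1) : ℤ) * G (k + 1) =
      (-1) ^ (k + 1) * (n.choose (k + 1) : ℤ) * G (k + 1) -
        (-1) ^ k * (n.choose k : ℤ) * G (k + 1) := by
    intro k _
    rw [Nat.choose_succ_succ]
    push_cast
    ring
  rw [Finset.sum_congr rfl e1, Finset.sum_sub_distrib]
  have e2 : ∑ k ∈ range (n + 1), (-1 : ℤ) ^ (k + 1) * (n.choose (k + 1) : ℤ) * G (k + 1) + G 0 =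
      ∑ k ∈ range (n + 1), (-1) ^ k * (n.choose k : ℤ) * G k := by
    have := Finset.sum_range_succ' (fun k => (-1 : ℤ) ^ k * (n.choose k : ℤ) * G k) (n + 1)
    rw [Finset.sum_range_succ] at this
    simp only [Nat.choose_succ_self, Nat.cast_zero, mul_zero, zero_mul, add_zero, pow_zero,
      Nat.choose_zero_right, Nat.cast_one, one_mul] at this
    exact this.symm
  simp only [mul_sub, Finset.sum_sub_distrib]
  rw [← e2]
  simp
  ring

lemma a_formula (n : ℕ) : ∀ i j : ℤ, a n i j = ∑ k ∈ range (n + 1),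
    (-1) ^ k * (n.choose k : ℤ) * (bz (2 * k) (k + i) * bz k (j + n - k)) := by
  induction n with
  | zero =>
    intro i j
    simp only [a, zero_add, Finset.range_one, Finset.sum_singleton, pow_zero, one_mul,
      Nat.choose_self, Nat.cast_one, Nat.cast_zero, mul_zero, zero_add, add_zero, sub_zero]
    have hb : ∀ k : ℤ, bz 0 k = if k = 0 then 1 else 0 := by
      intro k
      unfold bz
      rcases lt_trichotomy k 0 with h | h | h
      · rw [if_neg (by omega), if_neg (by omega)]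
      · subst h
        simp
      · rw [if_pos (by omega), if_neg (by omega), Nat.choose_eq_zero_of_lt (by omega)]
        simp
    rw [hb, hb]
    by_cases h1 : i = 0 <;> by_cases h2 : j = 0 <;> simp [h1, h2]
  | succ n ih =>
    intro i j
    rw [sum_choose_succ n (fun k => bz (2 * k) (k + i) * bz k (j + ((n + 1 : ℕ) : ℤ) - k)),
      a_succ, ih, ih, ih, ih, ih, ih, ih, Finset.mul_sum, Finset.mul_sum]
    simp only [← Finset.sum_sub_distrib]
    apply Finset.sum_congr rfl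
    intro k _
    have e1 : bz (2 * (k + 1)) (((k + 1 : ℕ) : ℤ) + i) =
        bz (2 * k) (k + (i + 1)) + 2 * bz (2 * k) (k + i) + bz (2 * k) (k + (i - 1)) := by
      have : 2 * (k + 1) = 2 * k + 1 + 1 := by ring
      rw [this, bz_succ, bz_succ, bz_succ]
      have f1 : ((k + 1 : ℕ) : ℤ) + i = k + (i + 1) := by push_cast; ring
      have f2 : ((k + 1 : ℕ) : ℤ) + i - 1 = k + i := by push_cast; ring
      have f3 : ((k + 1 : ℕ) : ℤ) + i - 1 - 1 = k + (i - 1) := by push_cast; ring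
      rw [f3, f2, f1]
      ring
    have e2 : bz (k + 1) (j + ((n + 1 : ℕ) : ℤ) - ((k + 1 : ℕ) : ℤ)) =
        bz k (j + n - k) + bz k (j - 1 + n - k) := by
      rw [bz_succ]
      have f1 : j + ((n + 1 : ℕ) : ℤ) - ((k + 1 : ℕ) : ℤ) = j + n - k := by push_cast; ring
      have f2 : j + ((n + 1 : ℕ) : ℤ) - ((k + 1 : ℕ) : ℤ) - 1 = j - 1 + n - k := by
        push_cast
        ring
      rw [f2, f1]
    have e3 : bz k (j + ((n + 1 : ℕ) : ℤ) - k) = bz k (j + 1 + n - k) := by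
      congr 1
      push_cast
      ring
    rw [e1, e2, e3]
    ring

/-! ## The closed form of `A(N)` -/

lemma S_eq (n : ℕ) : S (n + 3) = a n 0 0 := by
  rw [a_formula]
  unfold S
  have e1 : n + 3 - 2 = n + 1 := by omega
  have e2 : n + 3 - 3 = n := by omega
  rw [e1, e2]
  apply Finset.sum_congr rfl
  intro k hk
  rw [Finset.mem_range] at hk
  have e3 : (0 : ℤ) + n - k = ((n - k : ℕ) : ℤ) := by omega
  rw [e3, bz_natCast, add_zero, bz_natCast]
  ring

lemma T_eq (n : ℕ) : T (n + 3) = (n + 3) ^ 2 * β (n + 1) + (n + 3) * (n + 2) * β n := by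
  unfold T
  have e1 : n + 3 + 2 = (n + 2) + 3 := by ring
  have e2 : n + 3 + 1 = (n + 1) + 3 := by ring
  rw [e1, e2, S_eq, S_eq, S_eq]
  exact main_identity n

/-- **the closed form** -/
lemma A_eq (n : ℕ) : A (n + 2) = (-1) ^ n * (n + 2) * β n := by
  induction n with
  | zero =>
    have h1 : β 0 = 2 := by
      simp [β, a]
    have h2 : T 1 = 1 := by
      decide
    have h3 : T 2 = 10 := by
      decide
    rw [h1]
    unfold A
    rw [show Icc 1 (0 + 2) = {1, 2} from rfl, Finset.sum_pair (by norm_num), h2, h3]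
    norm_num
  | succ n ih =>
    have e : A (n + 1 + 2) = A (n + 2) + (-1) ^ (n + 3) * (T (n + 3) : ℚ) / ((n + 3 : ℕ) : ℚ) := by
      unfold A
      rw [show n + 1 + 2 = (n + 2) + 1 by ring, Finset.sum_Icc_succ_top (by omega)]
    rw [e, ih, T_eq]
    push_cast
    have : ((n : ℚ) + 3) ≠ 0 := by positivity
    field_simp
    ring

/-! ## The congruence modulo `p ^ 2` -/

section prime
variable {m : ℕ} (hp : (2 * m + 3).Prime)
include hp

/-- `C(p - 1, k) ≡ (-1)^k` -/
lemma choose_pred (k : ℕ) (hk : k ≤ 2 * m + 2) :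
    (((2 * m + 2).choose k : ℕ) : ZMod (2 * m + 3)) = (-1) ^ k := by
  induction k with
  | zero => simp
  | succ k ih =>
    have h1 := hp.dvd_choose_self (k := k + 1) (by omega) (by omega)
    have h2 : (((2 * m + 3).choose (k + 1) : ℕ) : ZMod (2 * m + 3)) = 0 :=
      (ZMod.natCast_eq_zero_iff _ _).2 h1
    rw [show 2 * m + 3 = (2 * m + 2) + 1 by ring, Nat.choose_succ_succ] at h2
    push_cast at h2
    have h3 := ih (by omega)
    rw [pow_succ]
    have h4 : ((((2 * m + 2).choose k : ℕ) : ZMod (2 * m + 3))) +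
        (((2 * m + 2).choose (k + 1) : ℕ) : ZMod (2 * m + 3)) = 0 := h2
    rw [h3] at h4
    linear_combination h4

lemma bz_zero_mod {k : ℕ} (h1 : m + 1 < k) (h2 : k ≤ 2 * m + 1) {i : ℤ} (hi : i = 0 ∨ i = 1) :
    ((bz (2 * k) (k + i) : ℤ) : ZMod (2 * m + 3)) = 0 := by
  rcases hi with rfl | rfl
  · rw [add_zero, bz_natCast]
    have := hp.dvd_choose (a := k) (b := 2 * k) (by omega) (by omega) (by omega)
    rw [Int.cast_natCast]
    exact (ZMod.natCast_eq_zero_iff _ _).2 this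
  · have e : ((k : ℤ) + 1) = ((k + 1 : ℕ) : ℤ) := by push_cast; ring
    rw [e, bz_natCast]
    have := hp.dvd_choose (a := k + 1) (b := 2 * k) (by omega) (by omega) (by omega)
    rw [Int.cast_natCast]
    exact (ZMod.natCast_eq_zero_iff _ _).2 this

/-- only one term of `a (p - 2) i j` is not divisible by `p` -/
lemma a_mod {i j : ℤ} (hi : i = 0 ∨ i = 1) (hj : 0 ≤ j) :
    ((a (2 * m + 1) i j : ℤ) : ZMod (2 * m + 3)) =
      (((-1) ^ (m + 1) * ((2 * m + 1).choose (m + 1) : ℤ) *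
        (bz (2 * (m + 1)) (((m + 1 : ℕ) : ℤ) + i) * bz (m + 1) (j + m)) : ℤ) :
          ZMod (2 * m + 3)) := by
  rw [a_formula]
  push_cast
  rw [Finset.sum_eq_single (m + 1)]
  · congr 3
    have : j + (2 * (m : ℤ) + 1) - (((m + 1 : ℕ) : ℤ)) = j + m := by push_cast; ring
    push_cast at this ⊢
    rw [this]
  · intro k hk hkm
    rw [Finset.mem_range] at hk
    rcases lt_or_gt_of_ne hkm with h | h
    · rw [bz_eq_zero (m := k) (k := j + (2 * (m : ℤ) + 1) - k) (by omega)]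
      simp
    · rw [bz_zero_mod hp h (by omega) hi]
      simp
  · intro h
    rw [Finset.mem_range] at h
    omega

lemma beta_mod : ((β (2 * m + 1) : ℤ) : ZMod (2 * m + 3)) = 2 * (-1) ^ (m + 1) := by
  have c1 : (((2 * (m + 1)).choose (m + 1) : ℕ) : ZMod (2 * m + 3)) = (-1) ^ (m + 1) := by
    have := choose_pred hp (m + 1) (by omega)
    rwa [show 2 * m + 2 = 2 * (m + 1) by ring] at this
  have c2 : (((2 * (m + 1)).choose (m + 2) : ℕ) : ZMod (2 * m + 3)) = (-1) ^ (m + 2) := by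
    have := choose_pred hp (m + 2) (by omega)
    rwa [show 2 * m + 2 = 2 * (m + 1) by ring] at this
  have c3 : (((2 * (m + 1)).choose (m + 1) : ℕ) : ZMod (2 * m + 3)) =
      2 * (((2 * m + 1).choose (m + 1) : ℕ) : ZMod (2 * m + 3)) := by
    have : (2 * (m + 1)).choose (m + 1) = 2 * (2 * m + 1).choose (m + 1) := by
      rw [show 2 * (m + 1) = (2 * m + 1) + 1 by ring, Nat.choose_succ_succ,
        Nat.choose_symm_half]
      ring
    rw [this]
    push_cast
    ring
  have c4 : ((2 * (m : ZMod (2 * m + 3))) + 3) = 0 := by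
    have := ZMod.natCast_self (2 * m + 3)
    push_cast at this
    exact this
  have b1 : bz (2 * (m + 1)) (((m + 1 : ℕ) : ℤ) + 0) = (2 * (m + 1)).choose (m + 1) := by
    rw [add_zero, bz_natCast]
  have b2 : bz (2 * (m + 1)) (((m + 1 : ℕ) : ℤ) + 1) = (2 * (m + 1)).choose (m + 2) := by
    rw [show ((m + 1 : ℕ) : ℤ) + 1 = ((m + 2 : ℕ) : ℤ) by push_cast; ring, bz_natCast]
  have b3 : bz (m + 1) (0 + m) = m + 1 := by
    rw [zero_add, bz_natCast, Nat.choose_succ_self_right]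
    push_cast
    ring
  have b4 : bz (m + 1) (1 + m) = 1 := by
    rw [show (1 : ℤ) + m = ((m + 1 : ℕ) : ℤ) by push_cast; ring, bz_natCast, Nat.choose_self]
    norm_num
  have b5 : bz (m + 1) (2 + m) = 0 := bz_eq_zero (by push_cast; omega)
  unfold β
  push_cast
  rw [a_mod hp (Or.inl rfl) (by norm_num : (0 : ℤ) ≤ 2),
    a_mod hp (Or.inl rfl) (by norm_num : (0 : ℤ) ≤ 1), a_mod hp (Or.inl rfl) le_rfl,
    a_mod hp (Or.inr rfl) (by norm_num : (0 : ℤ) ≤ 1), a_mod hp (Or.inr rfl) le_rfl,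
    b1, b2, b3, b4, b5]
  push_cast
  rw [c2, c1]
  rw [c1] at c3
  have hs : ((-1 : ZMod (2 * m + 3)) ^ (m + 1)) ^ 2 = 1 := by
    rw [← pow_mul, mul_comm (m + 1) 2, pow_mul, neg_one_sq, one_pow]
  rw [show m + 2 = (m + 1) + 1 by ring, pow_succ (-1 : ZMod (2 * m + 3)) (m + 1)]
  generalize (-1 : ZMod (2 * m + 3)) ^ (m + 1) = s at *
  generalize (((2 * m + 1).choose (m + 1) : ℕ) : ZMod (2 * m + 3)) = c at *
  generalize (m : ZMod (2 * m + 3)) = x at *
  linear_combination 8 * c * (x + 2) * hs - 4 * (x + 2) * c3 + 2 * s * c4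

end prime

/-- **Q1 and Q2.**  `n` divides `A(n)` for each `n ≥ 1` (in particular `A(n)` is an integer), and
`A(p) ≡ 2 p (-1)^((p+1)/2)` modulo `p²` for each odd prime `p`. -/
theorem result :
    (∀ n : ℕ, 1 ≤ n → ∃ c : ℤ, A n = n * c) ∧
      ∀ p : ℕ, p.Prime → p ≠ 2 →
        ∃ c : ℤ, A p - 2 * p * (-1) ^ ((p + 1) / 2) = (p : ℚ) ^ 2 * c := by
  constructor
  · intro n hn
    rcases Nat.lt_or_ge n 2 with h | h
    · have : n = 1 := by omega
      subst this
      refine ⟨-1, ?_⟩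
      have h2 : T 1 = 1 := by decide
      unfold A
      rw [Finset.Icc_self, Finset.sum_singleton, h2]
      norm_num
    · obtain ⟨m, rfl⟩ : ∃ m, n = m + 2 := ⟨n - 2, by omega⟩
      refine ⟨(-1) ^ m * β m, ?_⟩
      rw [A_eq]
      push_cast
      ring
  · intro p hp hp2
    obtain ⟨m, rfl⟩ : ∃ m, p = 2 * m + 3 := by
      have h1 := hp.two_le
      rcases hp.eq_two_or_odd' with h | h
      · exact absurd h hp2
      · obtain ⟨k, hk⟩ := h
        exact ⟨k - 1, by omega⟩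
    have h1 := beta_mod hp
    have h2 : (((β (2 * m + 1) - 2 * (-1) ^ (m + 1) : ℤ)) : ZMod (2 * m + 3)) = 0 := by
      push_cast
      rw [h1]
      ring
    rw [ZMod.intCast_zmod_eq_zero_iff_dvd] at h2
    obtain ⟨c, hc⟩ := h2
    refine ⟨-c, ?_⟩
    have e1 : (2 * m + 3 + 1) / 2 = m + 2 := by omega
    have e2 := A_eq (2 * m + 1)
    rw [show 2 * m + 1 + 2 = 2 * m + 3 by ring] at e2
    have hc' : ((β (2 * m + 1) : ℤ) : ℚ) - 2 * (-1) ^ (m + 1) = ((2 * m + 3 : ℕ) : ℚ) * c := by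
      exact_mod_cast hc
    rw [e1, e2]
    have e3 : ((-1 : ℚ)) ^ (2 * m + 1) = -1 := by
      rw [pow_succ, pow_mul]
      simp
    rw [e3]
    push_cast at hc' ⊢
    rw [show m + 2 = (m + 1) + 1 by ring, pow_succ (-1 : ℚ) (m + 1)]
    linear_combination (-(2 * (m : ℚ) + 3)) * hc'

end Pool.Agent.Results.MP_e5500d_nt.ClosedForm
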